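import Pool.Agent.Helper19.TL.NUMBase

set_option autoImplicit false

namespace TL

open TL.Num

/-- consequence of `L3` -/
theorem Num.triple_cases (a b c : ℕ) (ha : a = 3 ∨ a = 4 ∨ a = 5) (hb : b = 3 ∨ b = 4 ∨ b = 5)
    (hc : c = 3 ∨ c = 4 ∨ c = 5) (h : gv b < (1 - gv a) * (1 - gv c)) :
    (b = 3 ∧ (a = 3 ∨ c = 3)) ∨ (b = 4 ∧ a = 3 ∧ c = 3) := by
  have h5 := sqrt5_ge
  have h5' := sqrt5_le
  rcases ha with rfl | rfl | rfl <;> rcases hb with rfl | rfl | rfl <;>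
    rcases hc with rfl | rfl | rfl <;>
    simp only [gv3, gv4, gv5] at h <;>
    first
      | (left; exact ⟨rfl, Or.inl rfl⟩)
      | (left; exact ⟨rfl, Or.inr rfl⟩)
      | (right; exact ⟨rfl, rfl, rfl⟩)
      | (exfalso; nlinarith)

theorem NUM3_thm : S_NUM3 := by
  intro p hp hP hN
  have w2 : ∀ s, s + 2 ≤ 3 → gv (p s) + gv (p (s + 1)) < 1 := by
    intro s hs
    exact L2 (fun i => p (s + i)) (fun w hw => window 3 p hP s 2 hs (by norm_num) w hw)
  obtain ⟨h0, h1, h01⟩ := pair_cases _ _ (hp 0 (by norm_num)) (hp 1 (by norm_num))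
    (w2 0 (by norm_num))
  obtain ⟨-, h2, h12⟩ := pair_cases _ _ (hp 1 (by norm_num)) (hp 2 (by norm_num))
    (w2 1 (by norm_num))
  have h5 := sqrt5_ge
  have h5' := sqrt5_le
  have hPD : ¬ gv (p 1) < (1 - gv (p 0)) * (1 - gv (p 2)) := by
    intro hc
    obtain ⟨v, ⟨k, hk, hk0⟩, hv⟩ := hN
    exact hk0 (PD3 p (gv_lt_one _ h0) hc v hv k hk)
  have hq : ∀ i < 3, i = 0 ∨ i = 1 ∨ i = 2 := by omega
  rcases h0 with h0 | h0 | h0 <;> rcases h1 with h1 | h1 | h1 <;> rcases h2 with h2 | h2 | h2 <;>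
    first
      | (exfalso; omega)
      | (exfalso; apply hPD; rw [h0, h1, h2]; simp only [gv3, gv4, gv5]; nlinarith)
      | (left; intro i hi; rcases hq i hi with rfl | rfl | rfl <;> (simp [h0, h1, h2]; done))
      | (right; left; rw [h0, h1, h2]; simp; done)

end TL
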