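import Pool.Agent.Helper19.TL.NUM3

set_option autoImplicit false

namespace TL

open TL.Num

theorem NUM4_thm : S_NUM4 := by
  intro p hp hP hN
  have w2 : ∀ s, s + 2 ≤ 4 → gv (p s) + gv (p (s + 1)) < 1 := by
    intro s hs
    exact L2 (fun i => p (s + i)) (fun w hw => window 4 p hP s 2 hs (by norm_num) w hw)
  obtain ⟨h0, h1, h01⟩ := pair_cases _ _ (hp 0 (by norm_num)) (hp 1 (by norm_num))
    (w2 0 (by norm_num))
  obtain ⟨-, h2, h12⟩ := pair_cases _ _ (hp 1 (by norm_num)) (hp 2 (by norm_num))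
    (w2 1 (by norm_num))
  obtain ⟨-, h3, h23⟩ := pair_cases _ _ (hp 2 (by norm_num)) (hp 3 (by norm_num))
    (w2 2 (by norm_num))
  have t0 := triple_cases _ _ _ h0 h1 h2
    (L3 (fun i => p (0 + i)) (by simpa using gv_lt_one _ h0)
      (fun w hw => window 4 p hP 0 3 (by norm_num) (by norm_num) w hw))
  have t1 := triple_cases _ _ _ h1 h2 h3
    (L3 (fun i => p (1 + i)) (by simpa using gv_lt_one _ h1)
      (fun w hw => window 4 p hP 1 3 (by norm_num) (by norm_num) w hw))
  have h5 := sqrt5_ge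
  have h5' := sqrt5_le
  have hPD : ¬ gv (p 1) * (1 - gv (p 3)) + gv (p 2) * (1 - gv (p 0)) <
      (1 - gv (p 0)) * (1 - gv (p 3)) := by
    intro hc
    obtain ⟨v, ⟨k, hk, hk0⟩, hv⟩ := hN
    exact hk0 (PD4 p (gv_lt_one _ h0) (gv_lt_one _ h3) hc v hv k hk)
  have hq : ∀ i < 4, i = 0 ∨ i = 1 ∨ i = 2 ∨ i = 3 := by omega
  rcases h0 with h0 | h0 | h0 <;> rcases h1 with h1 | h1 | h1 <;> rcases h2 with h2 | h2 | h2 <;>
    rcases h3 with h3 | h3 | h3 <;>
    first
      | (exfalso; omega)
      | (exfalso; apply hPD; rw [h0, h1, h2, h3]; simp only [gv3, gv4, gv5]; norm_num; done)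
      | (left; intro i hi; rcases hq i hi with rfl | rfl | rfl | rfl <;>
          (simp [h0, h1, h2, h3]; done))
      | (right; left; intro i hi; rcases hq i hi with rfl | rfl | rfl | rfl <;>
          (simp [h0, h1, h2, h3]; done))
      | (right; right; left; intro i hi; rcases hq i hi with rfl | rfl | rfl | rfl <;>
          (simp [h0, h1, h2, h3]; done))
      | (right; right; right; right; rw [h0, h1, h2, h3]; simp; done)

end TL
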