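import Pool.Agent.Helper19.TL.NUMBase

set_option autoImplicit false

namespace TL

open TL.Num Finset

/-- type A -/
theorem Num.QA (d : ℕ) (v : ℕ → ℝ) :
    2 * (∑ i ∈ range (d + 1), v i ^ 2 - ∑ i ∈ range d, v i * v (i + 1)) =
      v 0 ^ 2 + ∑ i ∈ range d, (v i - v (i + 1)) ^ 2 + v d ^ 2 := by
  induction d with
  | zero => simp; ring
  | succ d ih =>
    rw [sum_range_succ (fun i => v i ^ 2) (d + 1), sum_range_succ (fun i => v i * v (i + 1)) d,
      sum_range_succ (fun i => (v i - v (i + 1)) ^ 2) d]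
    linear_combination ih

/-- consequence of `L4` -/
theorem Num.quad_cases (a b c e : ℕ) (ha : a = 3 ∨ a = 4 ∨ a = 5) (hb : b = 3 ∨ b = 4 ∨ b = 5)
    (hc : c = 3 ∨ c = 4 ∨ c = 5) (he : e = 3 ∨ e = 4 ∨ e = 5)
    (h : gv b * (1 - gv e) + gv c * (1 - gv a) < (1 - gv a) * (1 - gv e)) :
    (a = 3 ∨ a = 4) ∧ b = 3 ∧ c = 3 ∧ (e = 3 ∨ e = 4) := by
  have h5 := sqrt5_ge
  have h5' := sqrt5_le
  rcases ha with rfl | rfl | rfl <;> rcases hb with rfl | rfl | rfl <;>
    rcases hc with rfl | rfl | rfl <;> rcases he with rfl | rfl | rfl <;>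
    simp only [gv3, gv4, gv5] at h <;>
    first
      | (refine ⟨?_, rfl, rfl, ?_⟩ <;> (norm_num; done))
      | (exfalso; nlinarith)

theorem NUM5_thm : S_NUM5 := by
  intro d p hd hp hP hN
  have w2 : ∀ s, s + 2 ≤ d → gv (p s) + gv (p (s + 1)) < 1 := by
    intro s hs
    exact L2 (fun i => p (s + i)) (fun w hw => window d p hP s 2 hs (by omega) w hw)
  have hall : ∀ i < d, p i = 3 ∨ p i = 4 ∨ p i = 5 := by
    intro i hi
    by_cases h : i + 2 ≤ d
    · exact (pair_cases _ _ (hp i hi) (hp (i + 1) (by omega)) (w2 i h)).1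
    · have h1 : i - 1 + 1 = i := by omega
      have h2 := (pair_cases _ _ (hp (i - 1) (by omega)) (hp (i - 1 + 1) (by omega))
        (w2 (i - 1) (by omega))).2.1
      rwa [h1] at h2
  have h4 : ∀ s, s + 4 ≤ d → (p s = 3 ∨ p s = 4) ∧ p (s + 1) = 3 ∧ p (s + 2) = 3 ∧
      (p (s + 3) = 3 ∨ p (s + 3) = 4) := by
    intro s hs
    exact quad_cases _ _ _ _ (hall s (by omega)) (hall (s + 1) (by omega)) (hall (s + 2) (by omega))
      (hall (s + 3) (by omega)) (L4 (fun i => p (s + i)) (gv_lt_one _ (hall s (by omega)))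
        (gv_lt_one _ (hall (s + 3) (by omega)))
        (fun w hw => window d p hP s 4 hs (by omega) w hw))
  have hint : ∀ i, 0 < i → i + 1 < d → p i = 3 := by
    intro i hi hi'
    by_cases h : i + 3 ≤ d
    · have h1 := (h4 (i - 1) (by omega)).2.1
      have h2 : i - 1 + 1 = i := by omega
      rwa [h2] at h1
    · have h1 := (h4 (i - 2) (by omega)).2.2.1
      have h2 : i - 2 + 2 = i := by omega
      rwa [h2] at h1
  have h0 : p 0 = 3 ∨ p 0 = 4 := (h4 0 (by omega)).1
  have hl : p (d - 1) = 3 ∨ p (d - 1) = 4 := by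
    have h1 := (h4 (d - 4) (by omega)).2.2.2
    have h2 : d - 4 + 3 = d - 1 := by omega
    rwa [h2] at h1
  obtain ⟨e, rfl⟩ : ∃ e, d = e + 1 := ⟨d - 1, by omega⟩
  simp only [Nat.add_sub_cancel] at hl
  have c3 : Real.cos (Real.pi / ((3 : ℕ) : ℝ)) = 1 / 2 := by
    push_cast
    exact Real.cos_pi_div_three
  have c4 : Real.cos (Real.pi / ((4 : ℕ) : ℝ)) = Real.sqrt 2 / 2 := by
    push_cast
    exact Real.cos_pi_div_four
  have hs2 : Real.sqrt 2 ^ 2 = 2 := Real.sq_sqrt (by norm_num)
  have hs2p : 0 < Real.sqrt 2 := Real.sqrt_pos.2 (by norm_num)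
  obtain ⟨v, ⟨k, hk, hk0⟩, hv⟩ := hN
  -- all differences vanish
  have aux : ∀ (n : ℕ) (w : ℕ → ℝ), ∑ i ∈ range n, (w i - w (i + 1)) ^ 2 = 0 →
      ∀ i < n, w i = w (i + 1) := by
    intro n w h i hi
    have h1 := (sum_eq_zero_iff_of_nonneg (fun i _ => sq_nonneg _)).1 h i (mem_range.2 hi)
    have h2 := pow_eq_zero_iff (by norm_num) |>.1 h1
    linarith
  have aux2 : ∀ (n : ℕ) (w : ℕ → ℝ), (∀ i < n, w i = w (i + 1)) → ∀ i ≤ n, w i = w 0 := by
    intro n w h i
    induction i with
    | zero => intro _; rfl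
    | succ i ih =>
      intro hi
      rw [← h i (by omega)]
      exact ih (by omega)
  have hsn : ∀ (n : ℕ) (w : ℕ → ℝ), 0 ≤ ∑ i ∈ range n, (w i - w (i + 1)) ^ 2 :=
    fun n w => sum_nonneg fun i _ => sq_nonneg _
  rcases h0 with h0 | h0
  · exfalso
    rcases hl with hl | hl
    · -- type A
      have hQ : Q (e + 1) p v = ∑ i ∈ range (e + 1 + 1), v i ^ 2 -
          ∑ i ∈ range (e + 1), v i * v (i + 1) := by
        unfold Q
        rw [mul_sum]
        congr 1
        apply sum_congr rfl
        intro i hi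
        rw [mem_range] at hi
        have hpi : p i = 3 := by
          by_cases h : i = 0
          · rw [h, h0]
          · by_cases h' : i = e
            · rw [h', hl]
            · exact hint i (by omega) (by omega)
        rw [hpi, c3]
        ring
      have hA := QA (e + 1) v
      rw [← hQ] at hA
      have hsn' := hsn (e + 1) v
      have e0 : v 0 = 0 := by nlinarith [sq_nonneg (v 0), sq_nonneg (v (e + 1))]
      have e1 : ∑ i ∈ range (e + 1), (v i - v (i + 1)) ^ 2 = 0 := by
        nlinarith [sq_nonneg (v 0), sq_nonneg (v (e + 1))]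
      exact hk0 ((aux2 _ v (aux _ v e1) k hk).trans e0)
    · -- type B, last
      have hQ : Q (e + 1) p v = (∑ i ∈ range (e + 1), v i ^ 2 -
          ∑ i ∈ range e, v i * v (i + 1)) + v (e + 1) ^ 2 - Real.sqrt 2 * v e * v (e + 1) := by
        unfold Q
        rw [sum_range_succ (fun i => v i ^ 2) (e + 1),
          sum_range_succ (fun i => Real.cos (Real.pi / (p i : ℝ)) * v i * v (i + 1)) e, hl, c4]
        have h1 : ∑ i ∈ range e, Real.cos (Real.pi / (p i : ℝ)) * v i * v (i + 1) =
            (1 / 2) * ∑ i ∈ range e, v i * v (i + 1) := by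
          rw [mul_sum]
          apply sum_congr rfl
          intro i hi
          rw [mem_range] at hi
          have hpi : p i = 3 := by
            by_cases h : i = 0
            · rw [h, h0]
            · exact hint i (by omega) (by omega)
          rw [hpi, c3]
          ring
        rw [h1]
        ring
      have hA := QA e v
      have hsn' := hsn e v
      have hX : 2 * Q (e + 1) p v = v 0 ^ 2 + ∑ i ∈ range e, (v i - v (i + 1)) ^ 2 +
          (v e - Real.sqrt 2 * v (e + 1)) ^ 2 := by
        rw [hQ]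
        linear_combination hA - v (e + 1) ^ 2 * hs2
      have e0 : v 0 = 0 := by
        nlinarith [sq_nonneg (v 0), sq_nonneg (v e - Real.sqrt 2 * v (e + 1))]
      have e1 : ∑ i ∈ range e, (v i - v (i + 1)) ^ 2 = 0 := by
        nlinarith [sq_nonneg (v 0), sq_nonneg (v e - Real.sqrt 2 * v (e + 1))]
      have e2 : v e - Real.sqrt 2 * v (e + 1) = 0 := by
        nlinarith [sq_nonneg (v 0), sq_nonneg (v e - Real.sqrt 2 * v (e + 1))]
      have e3 := aux2 _ v (aux _ v e1)
      have e4 : v e = 0 := (e3 e le_rfl).trans e0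
      have e5 : v (e + 1) = 0 := by
        rw [e4, zero_sub, neg_eq_zero] at e2
        rcases mul_eq_zero.1 e2 with h | h
        · linarith
        · exact h
      by_cases hke : k ≤ e
      · exact hk0 ((e3 k hke).trans e0)
      · have : k = e + 1 := by omega
        rw [this] at hk0
        exact hk0 e5
  · rcases hl with hl | hl
    · -- type B, first
      exfalso
      have hQ : Q (e + 1) p v = v 0 ^ 2 - Real.sqrt 2 * v 0 * v 1 +
          (∑ i ∈ range (e + 1), v (i + 1) ^ 2 - ∑ i ∈ range e, v (i + 1) * v (i + 1 + 1)) := by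
        unfold Q
        rw [sum_range_succ' (fun i => v i ^ 2) (e + 1),
          sum_range_succ' (fun i => Real.cos (Real.pi / (p i : ℝ)) * v i * v (i + 1)) e, h0, c4]
        have h1 : ∑ i ∈ range e, Real.cos (Real.pi / (p (i + 1) : ℝ)) * v (i + 1) * v (i + 1 + 1) =
            (1 / 2) * ∑ i ∈ range e, v (i + 1) * v (i + 1 + 1) := by
          rw [mul_sum]
          apply sum_congr rfl
          intro i hi
          rw [mem_range] at hi
          have hpi : p (i + 1) = 3 := by
            by_cases h' : i + 1 = e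
            · rw [h', hl]
            · exact hint (i + 1) (by omega) (by omega)
          rw [hpi, c3]
          ring
        rw [h1]
        ring
      have hA := QA e (fun i => v (i + 1))
      have hsn' := hsn e (fun i => v (i + 1))
      beta_reduce at hA hsn'
      have hX : 2 * Q (e + 1) p v = (v (0 + 1) - Real.sqrt 2 * v 0) ^ 2 +
          ∑ i ∈ range e, (v (i + 1) - v (i + 1 + 1)) ^ 2 + v (e + 1) ^ 2 := by
        rw [hQ]
        linear_combination hA - v 0 ^ 2 * hs2
      have e0 : v (e + 1) = 0 := by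
        nlinarith [sq_nonneg (v (e + 1)), sq_nonneg (v (0 + 1) - Real.sqrt 2 * v 0)]
      have e1 : ∑ i ∈ range e, (v (i + 1) - v (i + 1 + 1)) ^ 2 = 0 := by
        nlinarith [sq_nonneg (v (e + 1)), sq_nonneg (v (0 + 1) - Real.sqrt 2 * v 0)]
      have e2 : v (0 + 1) - Real.sqrt 2 * v 0 = 0 := by
        nlinarith [sq_nonneg (v (e + 1)), sq_nonneg (v (0 + 1) - Real.sqrt 2 * v 0)]
      have e3 := aux2 _ (fun i => v (i + 1)) (aux _ (fun i => v (i + 1)) e1)
      beta_reduce at e3
      have e4 : v (0 + 1) = 0 := (e3 e le_rfl).symm.trans e0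
      have e5 : v 0 = 0 := by
        rw [e4, zero_sub, neg_eq_zero] at e2
        rcases mul_eq_zero.1 e2 with h | h
        · linarith
        · exact h
      by_cases hke : k = 0
      · rw [hke] at hk0
        exact hk0 e5
      · have h1 := e3 (k - 1) (by omega)
        have h2 : k - 1 + 1 = k := by omega
        rw [h2] at h1
        exact hk0 (h1.trans e4)
    · intro i hi
      by_cases h : i = 0
      · rw [h, h0]; simp
      · by_cases h' : i = e
        · rw [h', hl]; simp
        · rw [hint i (by omega) (by omega), if_neg (by omega)]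

end TL
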