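import Pool.Agent.Helper22.TL.Spec

set_option autoImplicit false

/-! # TL: lemmas for the numerical classifications -/

namespace TL.Num

open Finset

theorem Q_window (d m s : ℕ) (h : s + m ≤ d) (p : ℕ → ℕ) (w : ℕ → ℝ) :
    Q d p (fun n => if s ≤ n ∧ n ≤ s + m then w (n - s) else 0) = Q m (fun i => p (s + i)) w := by
  unfold Q
  have h1 : ∑ i ∈ range (d + 1), (if s ≤ i ∧ i ≤ s + m then w (i - s) else 0) ^ 2 =
      ∑ i ∈ range (m + 1), w i ^ 2 := by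
    have h2 : ∑ i ∈ Ico s (s + m + 1), (if s ≤ i ∧ i ≤ s + m then w (i - s) else 0) ^ 2 =
        ∑ i ∈ range (d + 1), (if s ≤ i ∧ i ≤ s + m then w (i - s) else 0) ^ 2 := by
      apply sum_subset
      · intro x hx
        rw [mem_Ico] at hx
        rw [mem_range]
        omega
      · intro x _ hx
        rw [mem_Ico] at hx
        rw [if_neg (by omega)]
        simp
    rw [← h2, sum_Ico_eq_sum_range]
    have h3 : s + m + 1 - s = m + 1 := by omega
    rw [h3]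
    apply sum_congr rfl
    intro i hi
    rw [mem_range] at hi
    rw [if_pos (by omega)]
    congr 2
    omega
  have h4 : ∑ i ∈ range d, Real.cos (Real.pi / p i) *
      (if s ≤ i ∧ i ≤ s + m then w (i - s) else 0) *
      (if s ≤ i + 1 ∧ i + 1 ≤ s + m then w (i + 1 - s) else 0) =
      ∑ i ∈ range m, Real.cos (Real.pi / p (s + i)) * w i * w (i + 1) := by
    have h2 : ∑ i ∈ Ico s (s + m), Real.cos (Real.pi / p i) *
      (if s ≤ i ∧ i ≤ s + m then w (i - s) else 0) *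
      (if s ≤ i + 1 ∧ i + 1 ≤ s + m then w (i + 1 - s) else 0) =
        ∑ i ∈ range d, Real.cos (Real.pi / p i) *
      (if s ≤ i ∧ i ≤ s + m then w (i - s) else 0) *
      (if s ≤ i + 1 ∧ i + 1 ≤ s + m then w (i + 1 - s) else 0) := by
      apply sum_subset
      · intro x hx
        rw [mem_Ico] at hx
        rw [mem_range]
        omega
      · intro x _ hx
        rw [mem_Ico] at hx
        by_cases h5 : s ≤ x ∧ x ≤ s + m
        · rw [if_neg (c := s ≤ x + 1 ∧ x + 1 ≤ s + m) (by omega)]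
          simp
        · rw [if_neg (c := s ≤ x ∧ x ≤ s + m) h5]
          simp
    rw [← h2, sum_Ico_eq_sum_range]
    have h3 : s + m - s = m := by omega
    rw [h3]
    apply sum_congr rfl
    intro i hi
    rw [mem_range] at hi
    rw [if_pos (by omega), if_pos (by omega)]
    have h5 : s + i - s = i := by omega
    have h6 : s + i + 1 - s = i + 1 := by omega
    rw [h5, h6]
  rw [h1, h4]

/-- restriction of the positivity hypothesis to windows -/
theorem window (d : ℕ) (p : ℕ → ℕ)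
    (hP : ∀ v : ℕ → ℝ, (∃ k ≤ d, v k = 0) → (∃ k ≤ d, v k ≠ 0) → 0 < Q d p v)
    (s m : ℕ) (h : s + m ≤ d) (hm : m < d) (w : ℕ → ℝ) (hw : ∃ k ≤ m, w k ≠ 0) :
    0 < Q m (fun i => p (s + i)) w := by
  rw [← Q_window d m s h p w]
  apply hP
  · by_cases hs : s = 0
    · refine ⟨d, le_rfl, ?_⟩
      rw [if_neg (by omega)]
    · refine ⟨0, by omega, ?_⟩
      rw [if_neg (by omega)]
  · obtain ⟨k, hk, hk0⟩ := hw
    refine ⟨s + k, by omega, ?_⟩
    rw [if_pos (by omega)]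
    have h5 : s + k - s = k := by omega
    rw [h5]
    exact hk0

/-- the square of the cosine -/
noncomputable def gv (n : ℕ) : ℝ := Real.cos (Real.pi / n) ^ 2

theorem gv3 : gv 3 = 1 / 4 := by
  unfold gv
  push_cast
  rw [Real.cos_pi_div_three]
  norm_num

theorem gv4 : gv 4 = 1 / 2 := by
  unfold gv
  push_cast
  rw [Real.cos_pi_div_four, div_pow, Real.sq_sqrt (by norm_num)]
  norm_num

theorem gv5 : gv 5 = (3 + Real.sqrt 5) / 8 := by
  unfold gv
  push_cast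
  rw [Real.cos_pi_div_five]
  have h := Real.sq_sqrt (show (0 : ℝ) ≤ 5 by norm_num)
  rw [div_pow, add_sq, h]
  ring

theorem gv_mono (m n : ℕ) (hm : 2 ≤ m) (h : m ≤ n) : gv m ≤ gv n := by
  unfold gv
  have hm' : (2 : ℝ) ≤ m := by exact_mod_cast hm
  have hmn : (m : ℝ) ≤ n := by exact_mod_cast h
  have hpi := Real.pi_pos
  have h1 : Real.pi / n ≤ Real.pi / m := by
    apply div_le_div_of_nonneg_left hpi.le (by linarith) hmn
  have h2 : Real.pi / m ≤ Real.pi / 2 := by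
    apply div_le_div_of_nonneg_left hpi.le (by norm_num) hm'
  have h0 : 0 ≤ Real.pi / n := by positivity
  have h3 : Real.cos (Real.pi / m) ≤ Real.cos (Real.pi / n) :=
    Real.cos_le_cos_of_nonneg_of_le_pi h0 (by linarith) h1
  have h4 : 0 ≤ Real.cos (Real.pi / m) :=
    Real.cos_nonneg_of_mem_Icc ⟨by linarith [div_nonneg hpi.le (by linarith : (0:ℝ) ≤ m)], h2⟩
  exact pow_le_pow_left₀ h4 h3 2

theorem gv_ge3 (n : ℕ) (h : 3 ≤ n) : 1 / 4 ≤ gv n := gv3 ▸ gv_mono 3 n (by norm_num) h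
theorem gv_ge4 (n : ℕ) (h : 4 ≤ n) : 1 / 2 ≤ gv n := gv4 ▸ gv_mono 4 n (by norm_num) h

theorem sqrt5_ge : (2.236 : ℝ) ≤ Real.sqrt 5 := Real.le_sqrt_of_sq_le (by norm_num)
theorem sqrt5_le : Real.sqrt 5 ≤ (2.2361 : ℝ) := Real.sqrt_le_iff.2 ⟨by norm_num, by norm_num⟩

theorem gv_ge5 (n : ℕ) (h : 5 ≤ n) : 5 / 8 ≤ gv n := by
  have h1 := gv_mono 5 n (by norm_num) h
  rw [gv5] at h1
  linarith [sqrt5_ge]

theorem gv6 : gv 6 = 3 / 4 := by
  unfold gv
  push_cast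
  rw [Real.cos_pi_div_six, div_pow, Real.sq_sqrt (by norm_num)]
  norm_num

theorem gv_ge6 (n : ℕ) (h : 6 ≤ n) : 3 / 4 ≤ gv n := gv6 ▸ gv_mono 6 n (by norm_num) h

theorem Q2 (p : ℕ → ℕ) (v : ℕ → ℝ) : Q 2 p v = v 0 ^ 2 + v 1 ^ 2 + v 2 ^ 2 -
    2 * (Real.cos (Real.pi / p 0) * v 0 * v 1 + Real.cos (Real.pi / p 1) * v 1 * v 2) := by
  simp only [Q, sum_range_succ, sum_range_zero]
  ring

theorem Q3 (p : ℕ → ℕ) (v : ℕ → ℝ) : Q 3 p v = v 0 ^ 2 + v 1 ^ 2 + v 2 ^ 2 + v 3 ^ 2 -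
    2 * (Real.cos (Real.pi / p 0) * v 0 * v 1 + Real.cos (Real.pi / p 1) * v 1 * v 2 +
      Real.cos (Real.pi / p 2) * v 2 * v 3) := by
  simp only [Q, sum_range_succ, sum_range_zero]
  ring

theorem Q4 (p : ℕ → ℕ) (v : ℕ → ℝ) : Q 4 p v = v 0 ^ 2 + v 1 ^ 2 + v 2 ^ 2 + v 3 ^ 2 + v 4 ^ 2 -
    2 * (Real.cos (Real.pi / p 0) * v 0 * v 1 + Real.cos (Real.pi / p 1) * v 1 * v 2 +
      Real.cos (Real.pi / p 2) * v 2 * v 3 + Real.cos (Real.pi / p 3) * v 3 * v 4) := by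
  simp only [Q, sum_range_succ, sum_range_zero]
  ring

theorem L2 (p : ℕ → ℕ) (h : ∀ w : ℕ → ℝ, (∃ k ≤ 2, w k ≠ 0) → 0 < Q 2 p w) :
    gv (p 0) + gv (p 1) < 1 := by
  have h1 := h (fun n => if n = 0 then Real.cos (Real.pi / p 0) else if n = 1 then 1 else
    if n = 2 then Real.cos (Real.pi / p 1) else 0) ⟨1, by norm_num, by norm_num⟩
  rw [Q2] at h1
  norm_num at h1
  unfold gv
  nlinarith [h1]

theorem L3 (p : ℕ → ℕ) (h0 : gv (p 0) < 1)
    (h : ∀ w : ℕ → ℝ, (∃ k ≤ 3, w k ≠ 0) → 0 < Q 3 p w) :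
    gv (p 1) < (1 - gv (p 0)) * (1 - gv (p 2)) := by
  have hA : 0 < 1 - gv (p 0) := by linarith
  have h1 := h (fun n => if n = 0 then Real.cos (Real.pi / p 0) * Real.cos (Real.pi / p 1) else
    if n = 1 then Real.cos (Real.pi / p 1) else
    if n = 2 then 1 - gv (p 0) else if n = 3 then Real.cos (Real.pi / p 2) * (1 - gv (p 0)) else 0)
    ⟨2, by norm_num, by norm_num; linarith⟩
  rw [Q3] at h1
  norm_num at h1
  have h2 : 0 < (1 - gv (p 0)) * ((1 - gv (p 0)) * (1 - gv (p 2)) - gv (p 1)) := by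
    refine lt_of_lt_of_eq (sub_pos.2 h1) ?_
    unfold gv
    ring
  have h3 := (mul_pos_iff_of_pos_left hA).1 h2
  linarith

theorem L4 (p : ℕ → ℕ) (h0 : gv (p 0) < 1) (h3 : gv (p 3) < 1)
    (h : ∀ w : ℕ → ℝ, (∃ k ≤ 4, w k ≠ 0) → 0 < Q 4 p w) :
    gv (p 1) * (1 - gv (p 3)) + gv (p 2) * (1 - gv (p 0)) < (1 - gv (p 0)) * (1 - gv (p 3)) := by
  have hA : 0 < 1 - gv (p 0) := by linarith
  have hB : 0 < 1 - gv (p 3) := by linarith
  have h1 := h (fun n =>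
    if n = 0 then Real.cos (Real.pi / p 0) * (Real.cos (Real.pi / p 1) * (1 - gv (p 3))) else
    if n = 1 then Real.cos (Real.pi / p 1) * (1 - gv (p 3)) else
    if n = 2 then (1 - gv (p 0)) * (1 - gv (p 3)) else
    if n = 3 then Real.cos (Real.pi / p 2) * (1 - gv (p 0)) else
    if n = 4 then Real.cos (Real.pi / p 3) * (Real.cos (Real.pi / p 2) * (1 - gv (p 0))) else 0)
    ⟨2, by norm_num, by norm_num; constructor <;> linarith⟩
  rw [Q4] at h1
  norm_num at h1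
  have h2 : 0 < ((1 - gv (p 0)) * (1 - gv (p 3))) * ((1 - gv (p 0)) * (1 - gv (p 3)) -
      gv (p 1) * (1 - gv (p 3)) - gv (p 2) * (1 - gv (p 0))) := by
    refine lt_of_lt_of_eq (sub_pos.2 h1) ?_
    unfold gv
    ring
  have h3 := (mul_pos_iff_of_pos_left (mul_pos hA hB)).1 h2
  linarith

theorem PD3 (p : ℕ → ℕ) (h0 : gv (p 0) < 1)
    (h : gv (p 1) < (1 - gv (p 0)) * (1 - gv (p 2))) (v : ℕ → ℝ) (hv : Q 3 p v ≤ 0) :
    ∀ k ≤ 3, v k = 0 := by
  rw [Q3] at hv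
  have hA : 0 < 1 - gv (p 0) := by linarith
  have hD : 0 < (1 - gv (p 0)) * (1 - gv (p 2)) - gv (p 1) := by linarith
  have key : (1 - gv (p 0)) * (v 0 - Real.cos (Real.pi / p 0) * v 1) ^ 2 +
      (1 - gv (p 0)) * (v 3 - Real.cos (Real.pi / p 2) * v 2) ^ 2 +
      ((1 - gv (p 0)) * v 1 - Real.cos (Real.pi / p 1) * v 2) ^ 2 +
      ((1 - gv (p 0)) * (1 - gv (p 2)) - gv (p 1)) * v 2 ^ 2 ≤ 0 := by
    have h1 := mul_nonpos_of_nonneg_of_nonpos hA.le hv
    refine le_of_eq_of_le ?_ h1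
    unfold gv
    ring
  have t1 := mul_nonneg hA.le (sq_nonneg (v 0 - Real.cos (Real.pi / p 0) * v 1))
  have t2 := mul_nonneg hA.le (sq_nonneg (v 3 - Real.cos (Real.pi / p 2) * v 2))
  have t3 := sq_nonneg ((1 - gv (p 0)) * v 1 - Real.cos (Real.pi / p 1) * v 2)
  have t4 := mul_nonneg hD.le (sq_nonneg (v 2))
  have e4 : v 2 = 0 := by
    have : ((1 - gv (p 0)) * (1 - gv (p 2)) - gv (p 1)) * v 2 ^ 2 = 0 := by linarith
    rcases mul_eq_zero.1 this with h5 | h5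
    · linarith
    · exact pow_eq_zero_iff (by norm_num) |>.1 h5
  have e3 : v 1 = 0 := by
    have h5 : ((1 - gv (p 0)) * v 1 - Real.cos (Real.pi / p 1) * v 2) ^ 2 = 0 := by linarith
    have h6 := pow_eq_zero_iff (by norm_num) |>.1 h5
    rw [e4, mul_zero, sub_zero] at h6
    rcases mul_eq_zero.1 h6 with h7 | h7
    · linarith
    · exact h7
  have e2 : v 3 = 0 := by
    have h5 : (1 - gv (p 0)) * (v 3 - Real.cos (Real.pi / p 2) * v 2) ^ 2 = 0 := by linarith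
    rcases mul_eq_zero.1 h5 with h7 | h7
    · linarith
    · have h6 := pow_eq_zero_iff (by norm_num) |>.1 h7
      rwa [e4, mul_zero, sub_zero] at h6
  have e1 : v 0 = 0 := by
    have h5 : (1 - gv (p 0)) * (v 0 - Real.cos (Real.pi / p 0) * v 1) ^ 2 = 0 := by linarith
    rcases mul_eq_zero.1 h5 with h7 | h7
    · linarith
    · have h6 := pow_eq_zero_iff (by norm_num) |>.1 h7
      rwa [e3, mul_zero, sub_zero] at h6
  intro k hk
  interval_cases k <;> assumption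

theorem PD4 (p : ℕ → ℕ) (h0 : gv (p 0) < 1) (h3 : gv (p 3) < 1)
    (h : gv (p 1) * (1 - gv (p 3)) + gv (p 2) * (1 - gv (p 0)) < (1 - gv (p 0)) * (1 - gv (p 3)))
    (v : ℕ → ℝ) (hv : Q 4 p v ≤ 0) : ∀ k ≤ 4, v k = 0 := by
  rw [Q4] at hv
  have hA : 0 < 1 - gv (p 0) := by linarith
  have hB : 0 < 1 - gv (p 3) := by linarith
  have hAB := mul_pos hA hB
  have hD : 0 < (1 - gv (p 0)) * (1 - gv (p 3)) - gv (p 1) * (1 - gv (p 3)) -
    gv (p 2) * (1 - gv (p 0)) := by linarith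
  have key : ((1 - gv (p 0)) * (1 - gv (p 3))) * (v 0 - Real.cos (Real.pi / p 0) * v 1) ^ 2 +
      ((1 - gv (p 0)) * (1 - gv (p 3))) * (v 4 - Real.cos (Real.pi / p 3) * v 3) ^ 2 +
      (1 - gv (p 3)) * ((1 - gv (p 0)) * v 1 - Real.cos (Real.pi / p 1) * v 2) ^ 2 +
      (1 - gv (p 0)) * ((1 - gv (p 3)) * v 3 - Real.cos (Real.pi / p 2) * v 2) ^ 2 +
      ((1 - gv (p 0)) * (1 - gv (p 3)) - gv (p 1) * (1 - gv (p 3)) -
        gv (p 2) * (1 - gv (p 0))) * v 2 ^ 2 ≤ 0 := by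
    have h1 := mul_nonpos_of_nonneg_of_nonpos hAB.le hv
    refine le_of_eq_of_le ?_ h1
    unfold gv
    ring
  have t1 := mul_nonneg hAB.le (sq_nonneg (v 0 - Real.cos (Real.pi / p 0) * v 1))
  have t2 := mul_nonneg hAB.le (sq_nonneg (v 4 - Real.cos (Real.pi / p 3) * v 3))
  have t3 := mul_nonneg hB.le (sq_nonneg ((1 - gv (p 0)) * v 1 - Real.cos (Real.pi / p 1) * v 2))
  have t5 := mul_nonneg hA.le (sq_nonneg ((1 - gv (p 3)) * v 3 - Real.cos (Real.pi / p 2) * v 2))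
  have t4 := mul_nonneg hD.le (sq_nonneg (v 2))
  have aux : ∀ a b : ℝ, 0 < a → a * b ^ 2 = 0 → b = 0 := by
    intro a b ha hab
    rcases mul_eq_zero.1 hab with h7 | h7
    · linarith
    · exact pow_eq_zero_iff (by norm_num) |>.1 h7
  have e2 : v 2 = 0 := aux _ _ hD (by linarith)
  have e1 : v 1 = 0 := by
    have h6 := aux _ _ hB (by linarith : (1 - gv (p 3)) *
      ((1 - gv (p 0)) * v 1 - Real.cos (Real.pi / p 1) * v 2) ^ 2 = 0)
    rw [e2, mul_zero, sub_zero] at h6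
    rcases mul_eq_zero.1 h6 with h7 | h7
    · linarith
    · exact h7
  have e3 : v 3 = 0 := by
    have h6 := aux _ _ hA (by linarith : (1 - gv (p 0)) *
      ((1 - gv (p 3)) * v 3 - Real.cos (Real.pi / p 2) * v 2) ^ 2 = 0)
    rw [e2, mul_zero, sub_zero] at h6
    rcases mul_eq_zero.1 h6 with h7 | h7
    · linarith
    · exact h7
  have e0 : v 0 = 0 := by
    have h6 := aux _ _ hAB (by linarith : ((1 - gv (p 0)) * (1 - gv (p 3))) *
      (v 0 - Real.cos (Real.pi / p 0) * v 1) ^ 2 = 0)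
    rwa [e1, mul_zero, sub_zero] at h6
  have e4 : v 4 = 0 := by
    have h6 := aux _ _ hAB (by linarith : ((1 - gv (p 0)) * (1 - gv (p 3))) *
      (v 4 - Real.cos (Real.pi / p 3) * v 3) ^ 2 = 0)
    rwa [e3, mul_zero, sub_zero] at h6
  intro k hk
  interval_cases k <;> assumption

/-- consequences of `L2` -/
theorem pair_cases (a b : ℕ) (ha : 3 ≤ a) (hb : 3 ≤ b) (h : gv a + gv b < 1) :
    (a = 3 ∨ a = 4 ∨ a = 5) ∧ (b = 3 ∨ b = 4 ∨ b = 5) ∧ (a = 3 ∨ b = 3) := by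
  have h1 := gv_ge3 a ha
  have h2 := gv_ge3 b hb
  have ha5 : a ≤ 5 := by
    by_contra hc
    have := gv_ge6 a (by omega)
    linarith
  have hb5 : b ≤ 5 := by
    by_contra hc
    have := gv_ge6 b (by omega)
    linarith
  refine ⟨by omega, by omega, ?_⟩
  by_contra hc
  push Not at hc
  have h3 := gv_ge4 a (by omega)
  have h4 := gv_ge4 b (by omega)
  linarith

theorem gv_lt_one (n : ℕ) (h : n = 3 ∨ n = 4 ∨ n = 5) : gv n < 1 := by
  rcases h with rfl | rfl | rfl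
  · rw [gv3]; norm_num
  · rw [gv4]; norm_num
  · rw [gv5]; linarith [sqrt5_le]

end TL.Num
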